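import Pool.Agent.Helper19.EQ.Defs
import Pool.Agent.Helper56.EQ.L

/-! Project QD, block L: the lower bound at the origin for the difference form. -/

set_option autoImplicit false

namespace Pool.Agent.Helper56.QD

open MeasureTheory Set Filter Topology
open Pool.Agent.Helper95.EW (Ac Dl Nr Ac_meas Ac_lt_one Nr_meas Dl_int)
open Pool.Agent.Helper95.EQ (E_fin)
open Pool.Agent.Helper71.MR (gt gt_cont gt_nonneg gt_zero gt_integrable gt_int_pos)
open Pool.Agent.Helper63.EQ (nu Zn Adm)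
open Pool.Agent.Helper19.QD (ps Wd Dr)
open Pool.Agent.Helper56.EQ (g1_meas g1_abs XX_le_32 g1_ge')
open Pool.Agent.Helper99.MS (ell ff mr GB gg KL cv be g1 EE al XX ww XX_le_sq XX_ge_sq EE_pos EE_le_one g1_int g1_tail ell_le_linear
  ff_zero ff_small ww_int ww_Iic tail_Iic ell_nonneg ell_al_tot ff_meas al_cont EE_deriv EE_cont ww_cont)

variable {w : ℝ → ℝ} {Cw B : ℝ}

/-- two-sided form of the bound of `g1` near the origin -/
theorem g1_near (hB : GB (ff mr) B) {m : ℝ} (hm : 64 ≤ m) {v : ℝ} (h1 : -1 ≤ v) (h2 : v ≤ 1 / 5) :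
    |g1 m v - Real.exp (-(v / 2)) * EE m v| ≤ 2 * Real.exp (-(m / 32)) + 16 * B * Real.exp (-((m - 4) / 32)) := by
  have hm8 : 8 ≤ m := by linarith
  have hB0 := hB.nonneg
  have hl2a := Real.log_two_gt_d9
  have hl2b := Real.log_two_lt_d9
  set a := v - Real.log 2 with ha
  have ha1 : a ≤ -(49 / 100) := by rw [ha]; linarith
  have ha2 : -2 ≤ a := by rw [ha]; linarith
  have hi := g1_int hB hm8 v
  have hXa : XX a ≤ -(1 / 32) := XX_le_32 ha2 ha1
  have hE1 : EE m a ≤ Real.exp (-(m / 32)) := by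
    unfold EE
    apply Real.exp_le_exp.2
    nlinarith
  have hE2 : EE (m - 4) a ≤ Real.exp (-((m - 4) / 32)) := by
    unfold EE
    apply Real.exp_le_exp.2
    nlinarith
  have hs1 : g1 m v = (∫ t in Set.Iic v, ff mr (v - t) * al m t) + ∫ t in Set.Ioi v, ff mr (v - t) * al m t := by
    unfold g1
    exact (intervalIntegral.integral_Iic_add_Ioi hi.integrableOn hi.integrableOn).symm
  have hs2 : ∫ t in Set.Ioi v, ff mr (v - t) * al m t = 0 := by
    rw [← integral_zero ℝ ℝ (μ := volume.restrict (Set.Ioi v))]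
    apply setIntegral_congr_fun measurableSet_Ioi
    intro t ht
    have ht' : v < t := ht
    simp only
    rw [ff_zero _ (by linarith), zero_mul]
  have hs3 : ∫ t in Set.Iic v, ff mr (v - t) * al m t =
      (∫ t in Set.Iic a, ff mr (v - t) * al m t) + ∫ t in Set.Ioc a v, ff mr (v - t) * al m t := by
    rw [← setIntegral_union (Set.Iic_disjoint_Ioc le_rfl) measurableSet_Ioc hi.integrableOn hi.integrableOn,
      Set.Iic_union_Ioc_eq_Iic (by rw [ha]; linarith)]
  have hs4 : ∫ t in Set.Ioc a v, ff mr (v - t) * al m t = Real.exp (-(v / 2)) * (EE m v - EE m a) := by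
    have h5 : ∀ t ∈ Set.Ioc a v, ff mr (v - t) * al m t = Real.exp (-(v / 2)) * ww m t := by
      intro t ht
      rw [ff_small (by linarith [ht.2]) (by rw [ha] at ht; linarith [ht.1])]
      unfold al
      rw [← mul_assoc, ← Real.exp_add]
      congr 2
      ring
    rw [setIntegral_congr_fun measurableSet_Ioc h5, integral_const_mul]
    congr 1
    have h6 : ∫ t in Set.Iic v, ww m t = (∫ t in Set.Iic a, ww m t) + ∫ t in Set.Ioc a v, ww m t := by
      have hw := ww_int (p := m) (by linarith)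
      rw [← setIntegral_union (Set.Iic_disjoint_Ioc le_rfl) measurableSet_Ioc hw.integrableOn hw.integrableOn,
        Set.Iic_union_Ioc_eq_Iic (by rw [ha]; linarith)]
    rw [ww_Iic (by linarith), ww_Iic (by linarith)] at h6
    linarith
  have hs5 : |∫ t in Set.Iic a, ff mr (v - t) * al m t| ≤ 16 * B * Real.exp (-((m - 4) / 32)) := by
    refine (g1_tail hB hm8 v _).trans ?_
    have h7 := tail_Iic hm8 (a := a) (by linarith)
    have h8 : ell v ≤ 2 := by
      have := ell_le_linear v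
      have h9 : |v| ≤ 1 := abs_le.2 ⟨h1, by linarith⟩
      linarith
    calc B * ell v * ∫ t in Set.Iic a, ell t * |al m t|
        ≤ (B * 2) * (8 * Real.exp (-((m - 4) / 32))) := by
          apply mul_le_mul _ (h7.trans (by linarith)) _ (by positivity)
          · exact mul_le_mul_of_nonneg_left h8 hB0
          · apply integral_nonneg
            intro t
            exact mul_nonneg (ell_nonneg t) (abs_nonneg _)
      _ = _ := by ring
  have hs6 := abs_le.1 hs5
  have hE4 : Real.exp (-(v / 2)) ≤ 2 := by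
    have h6 : Real.exp (-(v / 2)) ≤ Real.exp (1/2) := Real.exp_le_exp.2 (by linarith)
    have h7 : Real.exp (1/2) ≤ 2 := by
      have h8 : Real.exp (1/2) ^ 2 = Real.exp 1 := by
        rw [← Real.exp_nat_mul]; norm_num
      have he := Real.exp_one_lt_d9
      nlinarith [Real.exp_pos (1/2 : ℝ)]
    linarith
  have hE5 : Real.exp (-(v / 2)) * EE m a ≤ 2 * Real.exp (-(m / 32)) :=
    mul_le_mul hE4 hE1 (EE_pos m a).le (by norm_num)
  have hE6 : 0 ≤ Real.exp (-(v / 2)) * EE m a := mul_nonneg (Real.exp_pos _).le (EE_pos m a).le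
  have hE7 := Real.exp_pos (-(m / 32))
  rw [hs1, hs2, hs3, hs4, abs_le]
  constructor
  · linarith [mul_sub (Real.exp (-(v / 2))) (EE m v) (EE m a), hs6.1]
  · linarith [mul_sub (Real.exp (-(v / 2))) (EE m v) (EE m a), hs6.2]

theorem XX_mono {s t : ℝ} (hst : s ≤ t) (ht : t ≤ 0) : XX s ≤ XX t := by
  unfold XX
  have h1 := Real.add_one_le_exp (s - t)
  have h2 : Real.exp s = Real.exp t * Real.exp (s - t) := by rw [← Real.exp_add]; congr 1; ring
  have h3 : Real.exp t ≤ 1 := Real.exp_le_one_iff.2 ht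
  have h4 := Real.exp_pos t
  have h5 : Real.exp t * (s - t + 1) ≤ Real.exp t * Real.exp (s - t) := mul_le_mul_of_nonneg_left h1 h4.le
  have h6 : 0 ≤ (1 - Real.exp t) * (t - s) := mul_nonneg (by linarith) (by linarith)
  nlinarith

theorem EE_mono {m : ℝ} (hm : 0 ≤ m) {s t : ℝ} (hst : s ≤ t) (ht : t ≤ 0) : EE m s ≤ EE m t := by
  unfold EE
  exact Real.exp_le_exp.2 (mul_le_mul_of_nonneg_left (XX_mono hst ht) hm)

/-- the main part of `g1` near the origin -/
noncomputable def bb (m x : ℝ) : ℝ := Real.exp (-(x / 2)) * EE m x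

theorem bb_cont (m : ℝ) : Continuous (bb m) := by
  unfold bb
  exact (by fun_prop : Continuous fun x : ℝ => Real.exp (-(x / 2))).mul (EE_cont m)

theorem bb_deriv (m x : ℝ) : HasDerivAt (bb m) (Real.exp (-(x / 2)) * (-(1 / 2)) * EE m x + Real.exp (-(x / 2)) * ww m x) x := by
  have h1 : HasDerivAt (fun x : ℝ => Real.exp (-(x / 2))) (Real.exp (-(x / 2)) * (-(1 / 2))) x := by
    have h2 : HasDerivAt (fun x : ℝ => -(x / 2)) (-(1 / 2)) x := ((hasDerivAt_id x).div_const 2).neg
    exact h2.exp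
  exact h1.mul (EE_deriv m x)

theorem bb_lip (m : ℝ) : ∃ M : ℝ, 0 ≤ M ∧ (∀ x ∈ Icc (-2 : ℝ) 1, |bb m x| ≤ M) ∧
    ∀ x ∈ Icc (-2 : ℝ) 1, ∀ y ∈ Icc (-2 : ℝ) 1, |bb m x - bb m y| ≤ M * |x - y| := by
  obtain ⟨M1, hM1⟩ := isCompact_Icc.exists_bound_of_continuousOn (bb_cont m).continuousOn (s := Icc (-2 : ℝ) 1)
  have hc : Continuous fun x : ℝ => Real.exp (-(x / 2)) * (-(1 / 2)) * EE m x + Real.exp (-(x / 2)) * ww m x :=
    ((by fun_prop : Continuous fun x : ℝ => Real.exp (-(x / 2)) * (-(1 / 2))).mul (EE_cont m)).add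
      ((by fun_prop : Continuous fun x : ℝ => Real.exp (-(x / 2))).mul (ww_cont m))
  obtain ⟨M2, hM2⟩ := isCompact_Icc.exists_bound_of_continuousOn hc.continuousOn (s := Icc (-2 : ℝ) 1)
  have h10 : (0 : ℝ) ∈ Icc (-2 : ℝ) 1 := ⟨by norm_num, by norm_num⟩
  have hM10 : 0 ≤ M1 := (norm_nonneg _).trans (hM1 0 h10)
  have hM20 : 0 ≤ M2 := (norm_nonneg _).trans (hM2 0 h10)
  refine ⟨M1 + M2, by linarith, fun x hx => ?_, fun x hx y hy => ?_⟩
  · have := hM1 x hx
    rw [Real.norm_eq_abs] at this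
    linarith
  · have h := (convex_Icc (-2 : ℝ) 1).norm_image_sub_le_of_norm_hasDerivWithin_le
      (fun z _ => (bb_deriv m z).hasDerivWithinAt) hM2 hy hx
    rw [Real.norm_eq_abs, Real.norm_eq_abs] at h
    refine h.trans ?_
    exact mul_le_mul_of_nonneg_right (by linarith) (abs_nonneg _)

theorem sqrt_exp_log {a : ℝ} (ha : 0 < a) : √a = Real.exp (Real.log a / 2) := by
  rw [Real.sqrt_eq_iff_mul_self_eq ha.le (Real.exp_pos _).le, ← Real.exp_add]
  rw [show Real.log a / 2 + Real.log a / 2 = Real.log a by ring, Real.exp_log ha]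

theorem bb_diff (m x : ℝ) {a : ℝ} (ha : 0 < a) :
    bb m x - √a * bb m (x + Real.log a) = Real.exp (-(x / 2)) * (EE m x - EE m (x + Real.log a)) := by
  unfold bb
  rw [sqrt_exp_log ha, ← mul_assoc, ← Real.exp_add]
  rw [show Real.log a / 2 + -((x + Real.log a) / 2) = -(x / 2) by ring]
  ring

theorem bb_diff_nonneg {m : ℝ} (hm : 0 ≤ m) {x : ℝ} (hx : x ≤ 0) {a : ℝ} (ha : 0 < a) (ha1 : a ≤ 1) :
    0 ≤ bb m x - √a * bb m (x + Real.log a) := by
  rw [bb_diff m x ha]
  apply mul_nonneg (Real.exp_pos _).le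
  have := EE_mono hm (show x + Real.log a ≤ x by linarith [Real.log_nonpos ha.le ha1]) hx
  linarith

theorem num1 : (1 : ℝ) / 64 ≤ Real.exp (-4) - Real.exp (-9) := by
  have h1 : Real.exp 4 = Real.exp 1 ^ 4 := by rw [← Real.exp_nat_mul]; norm_num
  have h2 : Real.exp 4 ≤ 55 := by
    rw [h1]
    have h3 : Real.exp 1 ^ 4 ≤ 2.7182818286 ^ 4 := pow_le_pow_left₀ (Real.exp_pos _).le Real.exp_one_lt_d9.le 4
    refine h3.trans (by norm_num)
  have h4 : Real.exp (-9) ≤ Real.exp (-4) * (1 / 32) := by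
    rw [show (-9 : ℝ) = -4 + -5 by norm_num, Real.exp_add]
    apply mul_le_mul_of_nonneg_left _ (Real.exp_pos _).le
    rw [Real.exp_neg, one_div]
    apply inv_anti₀ (by norm_num)
    have h5 : Real.exp 5 = Real.exp 1 ^ 5 := by rw [← Real.exp_nat_mul]; norm_num
    rw [h5]
    have h6 : (2 : ℝ) ^ 5 ≤ Real.exp 1 ^ 5 := pow_le_pow_left₀ (by norm_num) (by linarith [Real.exp_one_gt_d9]) 5
    refine le_trans (by norm_num) h6
  have h7 : (1 : ℝ) / 55 ≤ Real.exp (-4) := by
    rw [Real.exp_neg, one_div]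
    exact inv_anti₀ (Real.exp_pos _) h2
  have h8 : (1 : ℝ) / 64 ≤ 1 / 55 * (31 / 32) := by norm_num
  nlinarith

theorem bb_diff_low {m δ : ℝ} (hm : 0 ≤ m) (hδ0 : 0 < δ) (hδ : δ ≤ 1 / 31) (hmδ : m * δ ^ 2 = 1) {x : ℝ} (hx : x ≤ 0) (hx2 : -(2 * δ) ≤ x)
    {a : ℝ} (ha : 0 < a) (ha1 : a < Real.exp (-(6 * δ))) : 1 / 64 ≤ bb m x - √a * bb m (x + Real.log a) := by
  rw [bb_diff m x ha]
  have hl : Real.log a ≤ -(6 * δ) := by
    rw [Real.log_le_iff_le_exp ha]
    exact ha1.le
  have h1 : Real.exp (-4) ≤ EE m x := by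
    unfold EE
    apply Real.exp_le_exp.2
    have h2 := XX_ge_sq (t := x) (abs_le.2 ⟨by linarith, by linarith⟩)
    have h3 : x ^ 2 ≤ 4 * δ ^ 2 := by nlinarith
    nlinarith
  have h2 : EE m (x + Real.log a) ≤ Real.exp (-9) := by
    refine (EE_mono hm (show x + Real.log a ≤ -(6 * δ) by linarith) (by linarith)).trans ?_
    unfold EE
    apply Real.exp_le_exp.2
    have h3 := XX_le_sq (t := -(6 * δ)) (abs_le.2 ⟨by linarith, by linarith⟩)
    nlinarith
  have h3 : 1 ≤ Real.exp (-(x / 2)) := Real.one_le_exp (by linarith)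
  have h4 := num1
  nlinarith

/-- the tent average of the main part -/
noncomputable def Hb (m δ y : ℝ) : ℝ := ∫ u : ℝ, bb m (y + u) * gt δ u

theorem bb_gt_int (m δ y : ℝ) : Integrable (fun u : ℝ => bb m (y + u) * gt δ u) := by
  apply Continuous.integrable_of_hasCompactSupport
  · exact ((bb_cont m).comp (by fun_prop)).mul (gt_cont δ)
  · apply HasCompactSupport.mul_left
    apply HasCompactSupport.intro (isCompact_Icc (a := (0 : ℝ)) (b := δ))
    intro u hu
    apply gt_zero
    rw [mem_Icc, not_and_or, not_le, not_le] at hu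
    rcases hu with hu | hu
    · exact Or.inl hu.le
    · exact Or.inr hu.le

theorem Hb_meas (m δ : ℝ) : Measurable (Hb m δ) := by
  have hm : Measurable fun p : ℝ × ℝ => bb m (p.1 + p.2) * gt δ p.2 :=
    ((bb_cont m).measurable.comp (by fun_prop)).mul ((gt_cont δ).measurable.comp measurable_snd)
  exact (hm.stronglyMeasurable.integral_prod_right').measurable

theorem Hb_Dl (m δ V lam : ℝ) : Dl (Hb m δ) w V lam =
    ∫ u : ℝ, (bb m (V + u) - √(Ac w lam) * bb m (V + u + Real.log (Ac w lam))) * gt δ u := by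
  unfold Dl Hb
  rw [← integral_const_mul, ← integral_sub (bb_gt_int m δ V) ((bb_gt_int m δ _).const_mul _)]
  congr 1
  ext u
  rw [show V + Real.log (Ac w lam) + u = V + u + Real.log (Ac w lam) by ring]
  ring

/-- the near-level integral of the main part -/
theorem near_low (h : Adm w Cw) {m δ : ℝ} (hm : 0 ≤ m) (hδ0 : 0 < δ) (hδ : δ ≤ 1 / 31) (hmδ : m * δ ^ 2 = 1) {V : ℝ}
    (h1 : -(2 * δ) ≤ V) (h2 : V ≤ -δ) :
    1 / 64 * nu w (6 * δ) * (∫ u : ℝ, gt δ u) ≤ ∫ lam in Nr w, Dl (Hb m δ) w V lam := by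
  set G : ℝ := ∫ u : ℝ, gt δ u with hG
  have hG0 : 0 < G := gt_int_pos hδ0
  obtain ⟨M, hM0, hM1, hM2⟩ := bb_lip m
  -- integrability
  have hint : IntegrableOn (Dl (Hb m δ) w V) (Nr w) := by
    apply Dl_int (B := M * G) (Hb_meas m δ) h.h0 h.hw h.hub h.hC
    · unfold Hb
      rw [hG, ← integral_const_mul, ← Real.norm_eq_abs]
      refine norm_integral_le_of_norm_le ((gt_integrable δ).const_mul _) (Eventually.of_forall fun u => ?_)
      rcases le_or_gt u 0 with hu | hu
      · rw [gt_zero (Or.inl hu)]; simp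
      rcases le_or_gt δ u with hu2 | hu2
      · rw [gt_zero (Or.inr hu2)]; simp
      rw [norm_mul, Real.norm_of_nonneg (gt_nonneg δ u)]
      exact mul_le_mul_of_nonneg_right (hM1 _ ⟨by linarith, by linarith⟩) (gt_nonneg δ u)
    · intro t ht1 ht2
      unfold Hb
      rw [← integral_sub (bb_gt_int m δ V) (bb_gt_int m δ _), ← Real.norm_eq_abs]
      have h3 : M * G * |t| = ∫ u : ℝ, M * |t| * gt δ u := by rw [integral_const_mul, hG]; ring
      rw [h3]
      refine norm_integral_le_of_norm_le ((gt_integrable δ).const_mul _) (Eventually.of_forall fun u => ?_)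
      rcases le_or_gt u 0 with hu | hu
      · rw [gt_zero (Or.inl hu)]; simp
      rcases le_or_gt δ u with hu2 | hu2
      · rw [gt_zero (Or.inr hu2)]; simp
      rw [← sub_mul, norm_mul, Real.norm_of_nonneg (gt_nonneg δ u)]
      apply mul_le_mul_of_nonneg_right _ (gt_nonneg δ u)
      have h4 := hM2 (V + u) ⟨by linarith, by linarith⟩ (V + t + u) ⟨by linarith, by linarith⟩
      rw [show V + u - (V + t + u) = -t by ring, abs_neg] at h4
      exact h4
  set E : Set ℝ := {lam : ℝ | lam ∈ Nr w ∧ Ac w lam < Real.exp (-(6 * δ))} with hE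
  have hEm : MeasurableSet E := (Nr_meas h.hub).inter (measurableSet_lt (Ac_meas h.hub) measurable_const)
  have hEf : volume E ≠ ⊤ := E_fin h (by linarith : 0 < 6 * δ)
  have hval : ∫ lam in Nr w, E.indicator (fun _ => 1 / 64 * G) lam = 1 / 64 * nu w (6 * δ) * G := by
    rw [setIntegral_indicator hEm, setIntegral_const, smul_eq_mul]
    have h3 : Nr w ∩ E = E := inter_eq_right.2 fun x hx => hx.1
    rw [h3]
    unfold nu
    ring
  rw [← hval]
  apply setIntegral_mono_on _ hint (Nr_meas h.hub)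
  · intro lam hlam
    have ha0 : 0 < Ac w lam := (Real.exp_pos _).trans_le hlam.2
    have ha1 : Ac w lam ≤ 1 := (Ac_lt_one h.hub lam).le
    rw [Hb_Dl]
    by_cases hlE : lam ∈ E
    · rw [indicator_of_mem hlE, hG, ← integral_const_mul]
      apply integral_mono ((gt_integrable δ).const_mul _)
      · have h5 := (bb_gt_int m δ V).sub ((bb_gt_int m δ (V + Real.log (Ac w lam))).const_mul (√(Ac w lam)))
        refine h5.congr (Eventually.of_forall fun u => ?_)
        simp only [Pi.sub_apply]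
        rw [show V + Real.log (Ac w lam) + u = V + u + Real.log (Ac w lam) by ring]
        ring
      · intro u
        simp only
        rcases le_or_gt u 0 with hu | hu
        · rw [gt_zero (Or.inl hu)]; simp
        rcases le_or_gt δ u with hu2 | hu2
        · rw [gt_zero (Or.inr hu2)]; simp
        apply mul_le_mul_of_nonneg_right _ (gt_nonneg δ u)
        exact bb_diff_low hm hδ0 hδ hmδ (by linarith) (by linarith) ha0 hlE.2
    · rw [indicator_of_notMem hlE]
      apply integral_nonneg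
      intro u
      simp only [Pi.zero_apply]
      rcases le_or_gt u 0 with hu | hu
      · rw [gt_zero (Or.inl hu)]; simp
      rcases le_or_gt δ u with hu2 | hu2
      · rw [gt_zero (Or.inr hu2)]; simp
      apply mul_nonneg _ (gt_nonneg δ u)
      exact bb_diff_nonneg hm (by linarith) ha0 ha1
  · have h6 : Integrable (E.indicator (fun _ : ℝ => 1 / 64 * G)) :=
      (integrable_indicator_iff hEm).2 (integrableOn_const hEf)
    exact h6.integrableOn

/-- the lower bound from the facts of the kernel -/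
theorem Dr_low_core (h : Adm w Cw) (hB : GB (ff mr) B) {m : ℝ} (hm : 1000 ≤ m) {V : ℝ} (h1 : -(2 / √m) ≤ V) (h2 : V ≤ -(1 / √m))
    (hps : ∀ y : ℝ, y ≤ -(1 / 2) ∨ 1 / √m ≤ y → ps w (1 / √m) y = 0) (hpi : Integrable (ps w (1 / √m)))
    (hDr : ∀ f : ℝ → ℝ, Measurable f → ∀ M : ℝ, (∀ y ∈ Icc (V - 1) (V + 1), |f y| ≤ M) →
      Dr w (1 / √m) f V = ∫ lam in Nr w, Dl (fun y => ∫ u : ℝ, f (y + u) * gt (1 / √m) u) w V lam) :
    1 / 64 * nu w (6 / √m) * (∫ u : ℝ, gt (1 / √m) u) -
      (2 * Real.exp (-(m / 32)) + 16 * B * Real.exp (-((m - 4) / 32))) * (∫ y : ℝ, |ps w (1 / √m) y|)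
      ≤ Dr w (1 / √m) (g1 m) V := by
  have hB0 := hB.nonneg
  have hs : 31 ≤ √m := by
    rw [show (31 : ℝ) = √(31 ^ 2) by rw [Real.sqrt_sq (by norm_num)]]
    apply Real.sqrt_le_sqrt
    norm_num
    linarith
  have hs0 : 0 < √m := by linarith
  have e6 : 6 / √m = 6 * (1 / √m) := by ring
  have e2 : 2 / √m = 2 * (1 / √m) := by ring
  rw [e6]
  rw [e2] at h1
  set δ : ℝ := 1 / √m with hδd
  have hδ0 : 0 < δ := by positivity
  have hδ1 : δ ≤ 1 / 31 := by
    rw [hδd]
    apply one_div_le_one_div_of_le (by norm_num) hs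
  have hmδ : m * δ ^ 2 = 1 := by
    rw [hδd, div_pow, one_pow, Real.sq_sqrt (by linarith)]
    field_simp
  obtain ⟨M, hM0, hM1, hM2⟩ := bb_lip m
  have hgm := g1_meas m
  set Er : ℝ := 2 * Real.exp (-(m / 32)) + 16 * B * Real.exp (-((m - 4) / 32)) with hEr
  have hb := hDr (bb m) (bb_cont m).measurable M (fun y hy => hM1 y ⟨by linarith [hy.1], by linarith [hy.2]⟩)
  have hlow := near_low h (by linarith : 0 ≤ m) hδ0 hδ1 hmδ h1 h2
  have hb2 : Dr w δ (bb m) V = ∫ lam in Nr w, Dl (Hb m δ) w V lam := hb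
  rw [← hb2] at hlow
  have i1 : Integrable (fun y : ℝ => ps w δ y * bb m (V + y)) := by
    refine Integrable.mono' (hpi.abs.mul_const M) ?_ ?_
    · exact hpi.aestronglyMeasurable.mul ((bb_cont m).comp (by fun_prop)).aestronglyMeasurable
    · refine Eventually.of_forall fun y => ?_
      rw [norm_mul, Real.norm_eq_abs, Real.norm_eq_abs]
      by_cases hy : y ≤ -(1 / 2) ∨ δ ≤ y
      · rw [hps y hy]; simp
      · push Not at hy
        exact mul_le_mul_of_nonneg_left (hM1 _ ⟨by linarith [hy.1], by linarith [hy.2]⟩) (abs_nonneg _)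
  have hr : ∀ y : ℝ, |ps w δ y * (g1 m (V + y) - bb m (V + y))| ≤ Er * |ps w δ y| := by
    intro y
    by_cases hy : y ≤ -(1 / 2) ∨ δ ≤ y
    · rw [hps y hy]; simp
    · push Not at hy
      rw [abs_mul, mul_comm]
      apply mul_le_mul_of_nonneg_right _ (abs_nonneg _)
      exact g1_near hB (by linarith) (by linarith [hy.1]) (by linarith [hy.2])
  have i2 : Integrable (fun y : ℝ => ps w δ y * (g1 m (V + y) - bb m (V + y))) := by
    refine Integrable.mono' (hpi.abs.const_mul Er) ?_ (Eventually.of_forall fun y => ?_)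
    · exact hpi.aestronglyMeasurable.mul
        ((hgm.comp (by fun_prop)).sub ((bb_cont m).measurable.comp (by fun_prop))).aestronglyMeasurable
    · rw [Real.norm_eq_abs]
      exact hr y
  have hsplit : Dr w δ (g1 m) V = Dr w δ (bb m) V + ∫ y : ℝ, ps w δ y * (g1 m (V + y) - bb m (V + y)) := by
    unfold Dr
    rw [← integral_add i1 i2]
    congr 1
    ext y
    ring
  have hrest : |∫ y : ℝ, ps w δ y * (g1 m (V + y) - bb m (V + y))| ≤ Er * ∫ y : ℝ, |ps w δ y| := by
    rw [← integral_const_mul, ← Real.norm_eq_abs]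
    refine norm_integral_le_of_norm_le (hpi.abs.const_mul Er) (Eventually.of_forall fun y => ?_)
    rw [Real.norm_eq_abs]
    exact hr y
  rw [hsplit]
  have := (abs_le.1 hrest).1
  linarith

end Pool.Agent.Helper56.QD
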