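import Pool.Agent.Helper19.EQ.Ps
import Pool.Agent.Helper56.QD.L

/-! Project QD, block L: `Dr_low`. -/

set_option autoImplicit false

namespace Pool.Agent.Helper56.QD

open MeasureTheory Set Filter Topology
open Pool.Agent.Helper71.MR (gt)
open Pool.Agent.Helper63.EQ (nu Adm)
open Pool.Agent.Helper19.QD (ps Wd Dr ps_supp ps_int Dr_eq)
open Pool.Agent.Helper99.MS (ff mr GB g1)

variable {w : ℝ → ℝ} {Cw B : ℝ}

theorem Dr_low (h : Adm w Cw) (hB : GB (ff mr) B) {m : ℝ} (hm : 1000 ≤ m) {V : ℝ} (h1 : -(2 / √m) ≤ V) (h2 : V ≤ -(1 / √m)) :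
    1 / 64 * nu w (6 / √m) * (∫ u : ℝ, gt (1 / √m) u) -
      (2 * Real.exp (-(m / 32)) + 16 * B * Real.exp (-((m - 4) / 32))) * (∫ y : ℝ, |ps w (1 / √m) y|)
      ≤ Dr w (1 / √m) (g1 m) V := by
  have hs : 31 ≤ √m := by
    rw [show (31 : ℝ) = √(31 ^ 2) by rw [Real.sqrt_sq (by norm_num)]]
    apply Real.sqrt_le_sqrt
    norm_num
    linarith
  have hδ0 : 0 < 1 / √m := by positivity
  have hδ1 : 1 / √m ≤ 1 / 31 := one_div_le_one_div_of_le (by norm_num) hs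
  exact Dr_low_core h hB hm h1 h2 (fun y hy => ps_supp h hδ0.le hy) (ps_int h hδ0 (by linarith)).1
    (fun f hf M hM => Dr_eq h hδ0.le (by linarith) hf hM)

end Pool.Agent.Helper56.QD
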