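import Pool.Agent.Helper19.EQ.Ps
import Pool.Agent.Helper63.EQ.Z2b
import Pool.Agent.Helper99.MS.Contra

/-! Project QD, block D: the upper bound at a far point. -/

set_option autoImplicit false

namespace Pool.Agent.Helper56.QD

open MeasureTheory Set Filter Topology
open Pool.Agent.Helper71.MR (gt gt_nonneg)
open Pool.Agent.Helper63.EW (S)
open Pool.Agent.Helper63.EQ (nu Zn Adm Zn_growth)
open Pool.Agent.Helper19.QD (ps Wd Dr)
open Pool.Agent.Helper99.MS (ff mr GB g1 ell EE al XX XX_le_sq XX_le_sq_pos EE_pos ell_nonneg one_le_ell ell_add ell_neg ell_al_int ell_al_tot al_int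
  tail_Iic tail_Ioi al_cont ell_cont)

variable {w : ℝ → ℝ} {Cw B : ℝ}

/-- the tail of the kernel -/
theorem al_tail {m : ℝ} (hm : 64 ≤ m) :
    ∫ t : ℝ, (Icc (-1 : ℝ) 1)ᶜ.indicator (fun t => ell t * |al m t|) t ≤ 16 * Real.exp (-(m / 16)) := by
  have hm8 : 8 ≤ m := by linarith
  have hi := ell_al_int hm8
  have h0 : ∀ t : ℝ, 0 ≤ ell t * |al m t| := fun t => mul_nonneg (ell_nonneg t) (abs_nonneg _)
  have e1 : (Icc (-1 : ℝ) 1)ᶜ = Iio (-1) ∪ Ioi 1 := by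
    ext x
    simp only [mem_compl_iff, mem_Icc, mem_union, mem_Iio, mem_Ioi, not_and_or, not_le]
  rw [integral_indicator measurableSet_Icc.compl, e1,
    setIntegral_union (by
      rw [Set.disjoint_left]
      intro x hx hx2
      simp only [mem_Iio, mem_Ioi] at hx hx2
      linarith) measurableSet_Ioi hi.integrableOn hi.integrableOn,
    ← integral_Iic_eq_integral_Iio]
  have h1 := tail_Iic hm8 (a := -1) (by norm_num)
  have h2 := tail_Ioi hm8 (a := 1) (by norm_num)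
  have h3 : EE (m - 4) (-1) ≤ Real.exp (-(m / 16)) := by
    unfold EE
    apply Real.exp_le_exp.2
    have h4 := XX_le_sq (t := -1) (by norm_num)
    nlinarith
  have h4 : EE (m - 4) 1 ≤ Real.exp (-(m / 16)) := by
    unfold EE
    apply Real.exp_le_exp.2
    have h4 := XX_le_sq (t := 1) (by norm_num)
    nlinarith
  linarith

/-- the upper bound from the convolution form -/
theorem Dr_up_core (h : Adm w Cw) {Cu : ℝ} (hCu : 0 ≤ Cu)
    (hg : ∀ (B : ℝ), GB (ff mr) B → ∀ m : ℝ, 8 ≤ m → ∀ δ : ℝ, 0 < δ → δ ≤ 1 / 4 → ∀ V : ℝ,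
      Dr w δ (g1 m) V = ∫ t : ℝ, al m t * Zn mr w δ (V - t))
    (hu : ∀ δ : ℝ, 0 < δ → δ ≤ 1 → ∃ τ₀ : ℝ, τ₀ ≤ 10 + 1 / δ ∧ ∀ V : ℝ, τ₀ ≤ V →
      ∀ G : ℝ, 0 ≤ G → (∀ N : ℕ, (N : ℝ) ≤ Real.exp (V + 2) → |S mr w N| ≤ G * √(N : ℝ)) →
        |Zn mr w δ V| ≤ Cu * (G + 1) * ∫ u : ℝ, gt δ u) :
    ∃ C : ℝ, 1 ≤ C ∧ ∀ (B : ℝ), GB (ff mr) B → ∀ m : ℝ, 64 ≤ m → ∀ δ : ℝ, 0 < δ → δ ≤ 1 / 4 →
    ∀ V G : ℝ, 20 + 1 / δ ≤ V → 0 ≤ G → (∀ N : ℕ, (N : ℝ) ≤ Real.exp (V + 3) → |S mr w N| ≤ G * √(N : ℝ)) →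
      |Dr w δ (g1 m) V| ≤ C * (G + 1) * (∫ u : ℝ, gt δ u) + C * B * ell V * Real.exp (-(m / 16)) := by
  obtain ⟨Cg, hCg0, hCg⟩ := Zn_growth h
  refine ⟨16 * Cu + 16 * Cg + 1, by linarith, fun B hB m hm δ hδ0 hδ V G hV hG hS => ?_⟩
  have hB0 := hB.nonneg
  have hm8 : 8 ≤ m := by linarith
  have hI0 : 0 ≤ ∫ u : ℝ, gt δ u := integral_nonneg fun u => gt_nonneg δ u
  set I : ℝ := ∫ u : ℝ, gt δ u with hI
  have hlV := ell_nonneg V
  obtain ⟨τ₀, hτ, hτ2⟩ := hu δ hδ0 (by linarith)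
  rw [hg B hB m hm8 δ hδ0 hδ V, ← Real.norm_eq_abs]
  have hi := ell_al_int hm8
  have hia : Integrable (fun t : ℝ => |al m t|) := (al_int (by linarith)).abs
  have hi2 : Integrable ((Icc (-1 : ℝ) 1)ᶜ.indicator (fun t => ell t * |al m t|)) :=
    hi.indicator measurableSet_Icc.compl
  have hbd : ‖∫ t : ℝ, al m t * Zn mr w δ (V - t)‖ ≤
      ∫ t : ℝ, (Cu * (G + 1) * I * |al m t| + Cg * B * ell V * (Icc (-1 : ℝ) 1)ᶜ.indicator (fun t => ell t * |al m t|) t) := by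
    refine norm_integral_le_of_norm_le ((hia.const_mul _).add (hi2.const_mul _)) (Eventually.of_forall fun t => ?_)
    rw [norm_mul, Real.norm_eq_abs, Real.norm_eq_abs]
    have hal := abs_nonneg (al m t)
    by_cases ht : t ∈ Icc (-1 : ℝ) 1
    · rw [indicator_of_notMem (by simpa using ht)]
      have h1 := hτ2 (V - t) (by linarith [ht.2]) G hG (fun N hN => hS N (hN.trans (Real.exp_le_exp.2 (by linarith [ht.1]))))
      have h2 := mul_le_mul_of_nonneg_left h1 hal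
      linarith
    · rw [indicator_of_mem (show t ∈ (Icc (-1 : ℝ) 1)ᶜ from ht)]
      have h1 := hCg B hB δ (V - t) hδ0 (by linarith)
      have h2 : ell (V - t) ≤ ell V * ell t := by
        have := ell_add V (-t)
        rw [ell_neg] at this
        exact this
      have h3 : |al m t| * |Zn mr w δ (V - t)| ≤ |al m t| * (Cg * B * (ell V * ell t)) :=
        mul_le_mul_of_nonneg_left (h1.trans (mul_le_mul_of_nonneg_left h2 (by positivity))) hal
      have h4 : 0 ≤ Cu * (G + 1) * I * |al m t| := by positivity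
      linarith
  have hval : ∫ t : ℝ, (Cu * (G + 1) * I * |al m t| + Cg * B * ell V * (Icc (-1 : ℝ) 1)ᶜ.indicator (fun t => ell t * |al m t|) t) =
      Cu * (G + 1) * I * (∫ t : ℝ, |al m t|) + Cg * B * ell V * ∫ t : ℝ, (Icc (-1 : ℝ) 1)ᶜ.indicator (fun t => ell t * |al m t|) t := by
    rw [integral_add (hia.const_mul _) (hi2.const_mul _), integral_const_mul, integral_const_mul]
  rw [hval] at hbd
  have hal16 : ∫ t : ℝ, |al m t| ≤ 16 := by
    refine (integral_mono hia hi fun t => ?_).trans (ell_al_tot hm8)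
    have := mul_le_mul_of_nonneg_right (one_le_ell t) (abs_nonneg (al m t))
    simpa using this
  have htl := al_tail hm
  have h5 : Cu * (G + 1) * I * (∫ t : ℝ, |al m t|) ≤ Cu * (G + 1) * I * 16 := mul_le_mul_of_nonneg_left hal16 (by positivity)
  have h6 : Cg * B * ell V * ∫ t : ℝ, (Icc (-1 : ℝ) 1)ᶜ.indicator (fun t => ell t * |al m t|) t ≤
      Cg * B * ell V * (16 * Real.exp (-(m / 16))) := mul_le_mul_of_nonneg_left htl (by positivity)
  have h7 : 0 ≤ (G + 1) * I := by positivity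
  have h8 : 0 ≤ B * ell V * Real.exp (-(m / 16)) := by positivity
  have h9 : 0 ≤ Cg * ((G + 1) * I) := mul_nonneg hCg0 h7
  have h10 : 0 ≤ Cu * (B * ell V * Real.exp (-(m / 16))) := mul_nonneg hCu h8
  calc _ ≤ _ := hbd
    _ ≤ Cu * (G + 1) * I * 16 + Cg * B * ell V * (16 * Real.exp (-(m / 16))) := add_le_add h5 h6
    _ ≤ _ := by nlinarith

end Pool.Agent.Helper56.QD
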